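import Pool.Agent.MP_c1891a_nt.G43.SpecA

/-
Row Exp: the exponential series on the open unit ball.
-/

namespace Pool.Agent.MP_c1891a_nt.G43

open Finset

section

variable {K A : Type} [NormedField K] [NormedCommRing A] [NormedAlgebra K A]

lemma Exp_ne (hK : UK K) {m : ℕ} (hm : m ≠ 0) : (m : K) ≠ 0 := by
  intro h
  have h1 := hK m hm
  rw [h, norm_zero] at h1
  exact zero_ne_one h1

lemma Exp_norm (hK : UK K) {a : A} (ha : ‖a‖ < 1) (j : ℕ) :
    Summable fun k : ℕ => ‖(((k + j).factorial : K)⁻¹) • a ^ k‖ := by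
  refine (summable_norm_geometric_of_norm_lt_one ha).congr fun k => ?_
  rw [norm_smul, norm_inv, hK _ (Nat.factorial_ne_zero _), inv_one, one_mul]

lemma Exp_norm0 (hK : UK K) {a : A} (ha : ‖a‖ < 1) :
    Summable fun k : ℕ => ‖((k.factorial : K)⁻¹) • a ^ k‖ := by
  simpa using Exp_norm hK ha 0

lemma Exp_hasSum [CompleteSpace A] (hK : UK K) {a : A} (ha : ‖a‖ < 1) :
    HasSum (fun k : ℕ => ((k.factorial : K)⁻¹) • a ^ k) (ex K a) :=
  (Exp_norm0 hK ha).of_norm.hasSum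

lemma Exp_add [CompleteSpace A] (hK : UK K) {a b : A} (ha : ‖a‖ < 1) (hb : ‖b‖ < 1) :
    ex K (a + b) = ex K a * ex K b := by
  have : CharZero K := ⟨fun m n h => by
    by_contra hne
    rcases Nat.lt_or_gt_of_ne hne with h1 | h1
    · exact Exp_ne hK (Nat.sub_ne_zero_of_lt h1) (by rw [Nat.cast_sub h1.le, h, sub_self])
    · exact Exp_ne hK (Nat.sub_ne_zero_of_lt h1) (by rw [Nat.cast_sub h1.le, h, sub_self])⟩
  unfold ex
  rw [tsum_mul_tsum_eq_tsum_sum_antidiagonal_of_summable_norm (Exp_norm0 hK ha) (Exp_norm0 hK hb)]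
  refine tsum_congr fun n => ?_
  rw [(Commute.all a b).add_pow' n, Finset.smul_sum]
  refine Finset.sum_congr rfl fun p hp => ?_
  rw [← Nat.cast_smul_eq_nsmul K, smul_smul, smul_mul_smul_comm, ← Finset.HasAntidiagonal.mem_antidiagonal.1 hp,
    Nat.cast_add_choose]
  congr 1
  have h1 : ((p.1 + p.2).factorial : K) ≠ 0 := Exp_ne hK (Nat.factorial_ne_zero _)
  have h2 : (p.1.factorial : K) ≠ 0 := Exp_ne hK (Nat.factorial_ne_zero _)
  have h3 : (p.2.factorial : K) ≠ 0 := Exp_ne hK (Nat.factorial_ne_zero _)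
  field_simp

lemma Exp_one [CompleteSpace A] (hK : UK K) {a : A} (ha : ‖a‖ < 1) :
    ∃ b, ex K a = 1 + a * b := by
  refine ⟨∑' k : ℕ, (((k + 1).factorial : K)⁻¹) • a ^ k, ?_⟩
  rw [ex, (Exp_norm0 hK ha).of_norm.tsum_eq_zero_add,
    ← (Exp_norm hK ha 1).of_norm.tsum_mul_left]
  congr 1
  · simp
  · refine tsum_congr fun k => ?_
    rw [mul_smul_comm, pow_succ']

lemma Exp_der [CompleteSpace A] (hK : UK K) {a : A} (ha : ‖a‖ < 1) (D : Derivation K A A)
    (hD : ∀ x, ‖D x‖ ≤ ‖x‖) : D (ex K a) = ex K a * D a := by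
  have hc : Continuous (D.toLinearMap.toAddMonoidHom) :=
    AddMonoidHomClass.continuous_of_bound D.toLinearMap.toAddMonoidHom 1 fun x => by
      simpa using hD x
  have h1 := (Exp_hasSum hK ha).map D.toLinearMap.toAddMonoidHom hc
  have h2 := (Exp_hasSum hK ha).mul_right (D a)
  have h3 : HasSum (fun k : ℕ => D (((k.factorial : K)⁻¹) • a ^ k)) (ex K a * D a) := by
    rw [← hasSum_nat_add_iff' 1]
    simp only [range_one, sum_singleton, pow_zero, Derivation.map_smul, Derivation.map_one_eq_zero,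
      smul_zero, sub_zero]
    have h4 : (fun k : ℕ => (((k + 1).factorial : K)⁻¹) • D (a ^ (k + 1))) =
        fun k : ℕ => (((k.factorial : K)⁻¹) • a ^ k) * D a := by
      funext k
      rw [Derivation.leibniz_pow, ← Nat.cast_smul_eq_nsmul K, smul_smul, Nat.add_sub_cancel,
        smul_eq_mul, smul_mul_assoc]
      congr 1
      have h5 : ((k + 1 : ℕ) : K) ≠ 0 := Exp_ne hK (Nat.succ_ne_zero k)
      have h6 : (k.factorial : K) ≠ 0 := Exp_ne hK (Nat.factorial_ne_zero _)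
      rw [Nat.factorial_succ, Nat.cast_mul]
      field_simp
    rw [h4]
    exact h2
  exact h1.unique h3

lemma Exp_map [CompleteSpace A] (hK : UK K) {a : A} (ha : ‖a‖ < 1) {A' : Type}
    [NormedCommRing A'] [NormedAlgebra K A'] (φ : A →ₐ[K] A') (hφ : ∀ x, ‖φ x‖ ≤ ‖x‖) :
    φ (ex K a) = ex K (φ a) := by
  have hc : Continuous (φ.toLinearMap.toAddMonoidHom) :=
    AddMonoidHomClass.continuous_of_bound φ.toLinearMap.toAddMonoidHom 1 fun x => by
      simpa using hφ x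
  have h1 := (Exp_hasSum hK ha).map φ.toLinearMap.toAddMonoidHom hc
  have h2 : (φ.toLinearMap.toAddMonoidHom ∘ fun k : ℕ => ((k.factorial : K)⁻¹) • a ^ k) =
      fun k : ℕ => ((k.factorial : K)⁻¹) • φ a ^ k := by
    funext k
    simp
  rw [h2] at h1
  exact h1.tsum_eq.symm

end

theorem sExp : SExp := by
  intro K A _ _ _ _ _ _ hK
  refine ⟨?_, fun a ha => ⟨fun b hb => Exp_add hK ha hb, Exp_one hK ha,
    fun D hD => Exp_der hK ha D hD, fun A' _ _ φ hφ => Exp_map hK ha φ hφ⟩⟩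
  obtain ⟨b, hb⟩ := Exp_one (A := A) hK (a := 0) (by simp)
  rw [hb, zero_mul, add_zero]

end Pool.Agent.MP_c1891a_nt.G43
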